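import Mathlib
import Pool.Agent.H94.Pot2

set_option autoImplicit false

namespace Pool.Agent.Results.MP_102303_co.RealPOTFails

theorem result : ∃ A : Matrix (Fin 9) (Fin 9) ℝ, A.PosSemidef ∧
    ∃ (μ : ℝ) (y : Equiv.Perm (Fin 9) → ℝ), y ≠ 0 ∧
      (Matrix.of fun σ τ : Equiv.Perm (Fin 9) => ∏ i, A (σ i) (τ i)).mulVec y = μ • y ∧
      A.permanent < μ :=
  Pool.Agent.H94.Pot.main

end Pool.Agent.Results.MP_102303_co.RealPOTFails
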